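import Pool.Agent.H934R3.NP.Stmts2

set_option autoImplicit false

open MeasureTheory Set Filter Topology
open scoped ENNReal NNReal

namespace Pool.Agent.H157R3.NP

open Pool.Agent.H934R3.NP

theorem taskM11 : TaskM11 := by
  intro hC4 g hg hbd S Ks K hops φ hφ
  obtain ⟨hfin, C, hC, hpot, hks⟩ := hbd
  have hcont : Continuous g := hg.smooth.continuous
  have hclosed : IsClosed (Sg g) := isClosed_eq hcont continuous_const
  have hcompact : IsCompact (Sg g) := by
    obtain ⟨R, hR⟩ := hg.pos
    apply (isCompact_closedBall (0 : E) R).of_isClosed_subset hclosed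
    intro x hx
    rw [mem_closedBall_zero_iff]
    by_contra h
    have h1 := hR x (not_le.mp h).le
    have h2 : g x = 0 := hx
    linarith
  have hnull : ∀ x : E, sig g {x} = 0 := by
    intro x
    have h1 : NullSingletonClass (Measure.hausdorffMeasure 2 : Measure E) :=
      Measure.nullSingletonClass_hausdorff E (by norm_num)
    have h2 : (Measure.hausdorffMeasure 2 : Measure E).restrict {x | g x = 0} {x} = 0 :=
      le_antisymm ((Measure.restrict_apply_le _ _).trans (h1.measure_singleton x).le) zero_le
    unfold sig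
    rw [Measure.smul_apply, h2]
    simp
  have hcar : sig g (Sg g)ᶜ = 0 := by
    unfold sig
    rw [Measure.smul_apply, Measure.restrict_apply hclosed.measurableSet.compl]
    have : (Sg g)ᶜ ∩ {x | g x = 0} = ∅ := by
      ext x; simp [Sg]
    rw [this]
    simp
  have hG : ∀ x : E, ∫⁻ y, ENNReal.ofReal (G (x - y)) ∂(sig g) ≤
      ENNReal.ofReal ((sig g univ).toReal + C) := by
    intro x
    calc ∫⁻ y, ENNReal.ofReal (G (x - y)) ∂(sig g)
        ≤ ∫⁻ y, (1 + ENNReal.ofReal (‖x - y‖ ^ (-(3 / 2) : ℝ))) ∂(sig g) := by
          apply lintegral_mono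
          intro y
          have h0 : 0 ≤ ‖x - y‖ := norm_nonneg _
          have h1 : G (x - y) ≤ 1 + ‖x - y‖ ^ (-(3 / 2) : ℝ) := by
            unfold G
            rcases h0.eq_or_lt with h | h
            · rw [← h]
              have : (0 : ℝ) ≤ (0 : ℝ) ^ (-(3 / 2) : ℝ) := Real.rpow_nonneg le_rfl _
              simp only [mul_zero, div_zero]
              linarith
            · have hpi := Real.pi_gt_three
              have h2 : 1 / (4 * Real.pi * ‖x - y‖) ≤ 1 / ‖x - y‖ := by
                apply one_div_le_one_div_of_le h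
                nlinarith
              refine h2.trans ?_
              by_cases h3 : 1 ≤ ‖x - y‖
              · have h4 : 1 / ‖x - y‖ ≤ 1 := by
                  rw [div_le_one h]; exact h3
                have h5 : 0 ≤ ‖x - y‖ ^ (-(3 / 2) : ℝ) := Real.rpow_nonneg h0 _
                linarith
              · have h4 : ‖x - y‖ ^ (-1 : ℝ) ≤ ‖x - y‖ ^ (-(3 / 2) : ℝ) :=
                  Real.rpow_le_rpow_of_exponent_ge h (not_le.mp h3).le (by norm_num)
                rw [Real.rpow_neg_one] at h4
                rw [one_div]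
                linarith
          calc ENNReal.ofReal (G (x - y)) ≤ ENNReal.ofReal (1 + ‖x - y‖ ^ (-(3 / 2) : ℝ)) :=
                ENNReal.ofReal_le_ofReal h1
            _ = 1 + ENNReal.ofReal (‖x - y‖ ^ (-(3 / 2) : ℝ)) := by
                rw [ENNReal.ofReal_add zero_le_one (Real.rpow_nonneg h0 _), ENNReal.ofReal_one]
      _ = sig g univ + ∫⁻ y, ENNReal.ofReal (‖x - y‖ ^ (-(3 / 2) : ℝ)) ∂(sig g) := by
          rw [lintegral_add_left measurable_const]
          simp
      _ ≤ ENNReal.ofReal ((sig g univ).toReal) + ENNReal.ofReal C := by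
          gcongr
          · rw [ENNReal.ofReal_toReal (measure_ne_top _ _)]
          · exact hpot x
      _ = ENNReal.ofReal ((sig g univ).toReal + C) := by
          rw [ENNReal.ofReal_add ENNReal.toReal_nonneg hC.le]
  exact hC4 (sig g) hfin hnull (Sg g) hcompact hcar _ hG S hops.repS φ hφ

end Pool.Agent.H157R3.NP
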